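import Mathlib

/-!
# Two-cycles of the gamma-graph operator (MP_b9dfd5_co)

We exhibit two non-isomorphic graphs `G` and `H`, both on 15 vertices with 31 edges, such that the
gamma-graph of `G` is isomorphic to `H` and the gamma-graph of `H` is isomorphic to `G`.
-/

namespace Pool.Agent.Results.MP_b9dfd5_co.TwoCycle

/-- `S` is a dominating set of `G`: every vertex outside `S` has a neighbour in `S`. -/
def IsDominating {V : Type} (G : SimpleGraph V) (S : Finset V) : Prop :=
  ∀ v, v ∉ S → ∃ u ∈ S, G.Adj v u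

/-- The domination number: the minimum size of a dominating set. -/
noncomputable def dominationNumber {V : Type} (G : SimpleGraph V) : ℕ :=
  sInf {k | ∃ S : Finset V, IsDominating G S ∧ S.card = k}

/-- A gamma-set is a dominating set whose size is the domination number. -/
def IsGammaSet {V : Type} (G : SimpleGraph V) (S : Finset V) : Prop :=
  IsDominating G S ∧ S.card = dominationNumber G

/-- The gamma-graph of `G`: its vertices are the gamma-sets of `G`, and `S₁ ≠ S₂` are adjacent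
when `S₂ = (S₁ \ {v₁}) ∪ {v₂}` for some adjacent vertices `v₁ ∈ S₁`, `v₂ ∈ S₂` of `G`. -/
def gammaGraph {V : Type} [DecidableEq V] (G : SimpleGraph V) :
    SimpleGraph {S : Finset V // IsGammaSet G S} where
  Adj S₁ S₂ := S₁ ≠ S₂ ∧ ∃ v₁ ∈ S₁.1, ∃ v₂ ∈ S₂.1, G.Adj v₁ v₂ ∧ S₂.1 = S₁.1 \ {v₁} ∪ {v₂}
  symm := ⟨by
    rintro ⟨S₁, h₁⟩ ⟨S₂, h₂⟩ ⟨hne, v₁, hv₁, v₂, hv₂, hadj, heq⟩
    refine ⟨hne.symm, v₂, hv₂, v₁, hv₁, hadj.symm, ?_⟩
    simp only at hv₁ hv₂ heq ⊢
    have hcard : S₁.card = S₂.card := h₁.2.trans h₂.2.symm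
    have hne' : v₂ ≠ v₁ := fun h => hadj.ne h.symm
    have hv₂' : v₂ ∉ S₁ := by
      intro hmem
      have hsub : S₂ = S₁ \ {v₁} := by
        rw [heq]
        apply Finset.union_eq_left.2
        intro x hx
        rw [Finset.mem_singleton] at hx
        subst hx
        simp [hmem, hne']
      have hlt : S₂.card < S₁.card := by
        rw [hsub]
        apply Finset.card_lt_card
        refine ⟨Finset.sdiff_subset, fun h => ?_⟩
        have := h hv₁
        simp at this
      omega
    ext x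
    rw [heq]
    simp only [Finset.mem_union, Finset.mem_sdiff, Finset.mem_singleton]
    constructor
    · intro hx
      by_cases h : x = v₁
      · exact Or.inr h
      · refine Or.inl ⟨Or.inl ⟨hx, h⟩, fun h' => hv₂' (h' ▸ hx)⟩
    · rintro (⟨(⟨hx, _⟩ | hx), h⟩ | hx)
      · exact hx
      · exact absurd hx h
      · exact hx ▸ hv₁⟩
  loopless := ⟨by
    rintro S ⟨h, -⟩
    exact h rfl⟩


/-- Rows of the adjacency matrix of `G`, as bit masks. -/
def rowsG : List ℕ :=
  [4098, 4157, 58, 54, 46, 16478, 18336, 1856, 11968, 1472, 960, 8448, 16387, 18688, 12384]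

/-- Rows of the adjacency matrix of `H`, as bit masks. -/
def rowsH : List ℕ :=
  [16386, 16645, 282, 20, 1708, 1680, 30976, 1840, 198, 1200, 688, 28736, 26688, 22592, 14403]

/-- Bit-mask adjacency test. -/
def adjOf (rows : List ℕ) (i j : Fin 15) : Bool := (rows.getD i.1 0).testBit j.1

/-- The graph `G`. -/
def G : SimpleGraph (Fin 15) where
  Adj i j := adjOf rowsG i j = true
  symm := ⟨by decide +kernel⟩
  loopless := ⟨by decide +kernel⟩

/-- The graph `H`. -/
def H : SimpleGraph (Fin 15) where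
  Adj i j := adjOf rowsH i j = true
  symm := ⟨by decide +kernel⟩
  loopless := ⟨by decide +kernel⟩

instance : DecidableRel G.Adj := fun i j => inferInstanceAs (Decidable (adjOf rowsG i j = true))
instance : DecidableRel H.Adj := fun i j => inferInstanceAs (Decidable (adjOf rowsH i j = true))

/-- The gamma-sets of `G`, in the order of the vertices of `H`. -/
def setsG : List (Finset (Fin 15)) :=
  [{0, 5, 8}, {1, 5, 8}, {1, 6, 8}, {1, 6, 11}, {1, 6, 13},
   {1, 7, 13}, {1, 8, 12}, {1, 8, 13}, {1, 8, 14}, {1, 9, 13},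
   {1, 10, 13}, {2, 8, 12}, {3, 8, 12}, {4, 8, 12}, {5, 8, 12}]

/-- The gamma-sets of `H`, in the order of the vertices of `G`. -/
def setsH : List (Finset (Fin 15)) :=
  [{0, 4, 6}, {1, 4, 6}, {1, 4, 11}, {1, 4, 12}, {1, 4, 13},
   {1, 4, 14}, {2, 4, 14}, {2, 5, 14}, {2, 7, 14}, {2, 9, 14},
   {2, 10, 14}, {3, 7, 14}, {4, 6, 14}, {4, 7, 14}, {4, 8, 14}]

/-- The `i`-th set of a list. -/
def fam (L : List (Finset (Fin 15))) (i : Fin 15) : Finset (Fin 15) := L.getD i.1 ∅

/-- General criterion for an explicit isomorphism of a gamma-graph on 15 vertices. -/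
theorem iso_of_check (A B : SimpleGraph (Fin 15)) (f : Fin 15 → Finset (Fin 15))
    (hdom : ∀ i, ∀ v, v ∉ f i → ∃ u ∈ f i, A.Adj v u)
    (hcard : ∀ i, (f i).card = 3)
    (hpair : ∀ a b : Fin 15, ∃ v, v ≠ a ∧ v ≠ b ∧ ¬ A.Adj v a ∧ ¬ A.Adj v b)
    (htriple : ∀ a b c : Fin 15,
      (∀ v, v = a ∨ v = b ∨ v = c ∨ A.Adj v a ∨ A.Adj v b ∨ A.Adj v c) → ∃ i, f i = {a, b, c})
    (hinj : ∀ i j, f i = f j → i = j)
    (hadj : ∀ i j, B.Adj i j ↔
      (i ≠ j ∧ ∃ v₁ ∈ f i, ∃ v₂ ∈ f j, A.Adj v₁ v₂ ∧ f j = f i \ {v₁} ∪ {v₂})) :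
    Nonempty (gammaGraph A ≃g B) := by
  -- no dominating set has at most two elements
  have hsmall : ∀ S : Finset (Fin 15), IsDominating A S → 3 ≤ S.card := by
    intro S hS
    by_contra hlt
    have hle : S.card ≤ 2 := by omega
    have hsub : ∃ a b : Fin 15, S ⊆ {a, b} := by
      interval_cases h : S.card
      · exact ⟨0, 0, by simp [Finset.card_eq_zero.1 h]⟩
      · obtain ⟨a, ha⟩ := Finset.card_eq_one.1 h
        exact ⟨a, a, by simp [ha]⟩
      · obtain ⟨a, b, _, hab⟩ := Finset.card_eq_two.1 h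
        exact ⟨a, b, by simp [hab]⟩
    obtain ⟨a, b, hab⟩ := hsub
    obtain ⟨v, h1, h2, h3, h4⟩ := hpair a b
    have hv : v ∉ S := by
      intro hv
      have := hab hv
      simp only [Finset.mem_insert, Finset.mem_singleton] at this
      tauto
    obtain ⟨u, hu, huv⟩ := hS v hv
    have := hab hu
    simp only [Finset.mem_insert, Finset.mem_singleton] at this
    rcases this with rfl | rfl
    · exact h3 huv
    · exact h4 huv
  have hnum : dominationNumber A = 3 := by
    unfold dominationNumber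
    apply le_antisymm
    · exact Nat.sInf_le ⟨f 0, hdom 0, hcard 0⟩
    · apply le_csInf
      · exact ⟨3, f 0, hdom 0, hcard 0⟩
      · rintro k ⟨S, hS, rfl⟩
        exact hsmall S hS
  have hgam : ∀ i, IsGammaSet A (f i) := fun i => ⟨hdom i, by rw [hcard i, hnum]⟩
  have hsurj : ∀ S, IsGammaSet A S → ∃ i, f i = S := by
    rintro S ⟨hS, hc⟩
    rw [hnum] at hc
    obtain ⟨a, b, c, _, _, _, rfl⟩ := Finset.card_eq_three.1 hc
    apply htriple
    intro v
    by_cases hv : v ∈ ({a, b, c} : Finset (Fin 15))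
    · simp only [Finset.mem_insert, Finset.mem_singleton] at hv
      tauto
    · obtain ⟨u, hu, huv⟩ := hS v hv
      simp only [Finset.mem_insert, Finset.mem_singleton] at hu
      rcases hu with rfl | rfl | rfl <;> tauto
  let e : Fin 15 ≃ {S : Finset (Fin 15) // IsGammaSet A S} :=
    Equiv.ofBijective (fun i => ⟨f i, hgam i⟩)
      ⟨fun i j h => hinj i j (congrArg Subtype.val h),
       fun S => by
        obtain ⟨i, hi⟩ := hsurj S.1 S.2
        exact ⟨i, Subtype.ext hi⟩⟩
  refine ⟨RelIso.symm ⟨e, ?_⟩⟩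
  intro i j
  have h1 : (e i).1 = f i := rfl
  have h2 : (e j).1 = f j := rfl
  rw [hadj i j]
  show (e i ≠ e j ∧ _) ↔ _
  rw [h1, h2]
  constructor
  · rintro ⟨h, h'⟩
    exact ⟨fun hij => h (congrArg e hij), h'⟩
  · rintro ⟨h, h'⟩
    exact ⟨fun hij => h (e.injective hij), h'⟩

theorem isoG : Nonempty (gammaGraph G ≃g H) :=
  iso_of_check G H (fam setsG) (by decide +kernel) (by decide +kernel) (by decide +kernel)
    (by decide +kernel) (by decide +kernel) (by decide +kernel)

theorem isoH : Nonempty (gammaGraph H ≃g G) :=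
  iso_of_check H G (fam setsH) (by decide +kernel) (by decide +kernel) (by decide +kernel)
    (by decide +kernel) (by decide +kernel) (by decide +kernel)

/-- `G` has a vertex of degree three, `H` has none. -/
theorem not_iso : ¬ Nonempty (G ≃g H) := by
  rintro ⟨φ⟩
  have h1 : G.degree 12 = 3 := by decide +kernel
  have h2 : ∀ v, H.degree v ≠ 3 := by decide +kernel
  apply h2 (φ 12)
  rw [φ.degree_eq, h1]

/-- There are two non-isomorphic (finite, simple) graphs `G` and `H`, both on 15 vertices, such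
that `G(γ) ≃ H` and `H(γ) ≃ G`. -/
theorem result : ∃ G H : SimpleGraph (Fin 15),
    ¬ Nonempty (G ≃g H) ∧ Nonempty (gammaGraph G ≃g H) ∧ Nonempty (gammaGraph H ≃g G) :=
  ⟨G, H, not_iso, isoG, isoH⟩

end Pool.Agent.Results.MP_b9dfd5_co.TwoCycle
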